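import Pool.Agent.H67.HM.Stm2

/-!
# Crew HM2, part FCP: exact solutions of correlation equations in `ℓ^p(ℕ)`
-/

set_option autoImplicit false
open Polynomial MeasureTheory Filter Topology

namespace HM

namespace FCPaux

theorem root_le {p x s : ℝ} (hp : 0 < p) (hx : 0 ≤ x) (hs : 0 ≤ s) (h : x ≤ s ^ p) :
    x ^ (1 / p) ≤ s := by
  have h1 := Real.rpow_le_rpow hx h (show 0 ≤ 1 / p by positivity)
  rwa [← Real.rpow_mul hs, mul_one_div_cancel hp.ne', Real.rpow_one] at h1

theorem le_of_root {p x s : ℝ} (hp : 0 < p) (hx : 0 ≤ x) (h : x ^ (1 / p) ≤ s) :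
    x ≤ s ^ p := by
  have h1 := Real.rpow_le_rpow (Real.rpow_nonneg hx _) h hp.le
  rwa [← Real.rpow_mul hx, one_div_mul_cancel hp.ne', Real.rpow_one] at h1

theorem Bd_add {p : ℝ} (hp : 1 ≤ p) {a b : ℕ → ℂ} {s t : ℝ} (hs : 0 ≤ s) (ht : 0 ≤ t)
    (ha : Bd p a (s ^ p)) (hb : Bd p b (t ^ p)) : Bd p (a + b) ((s + t) ^ p) := by
  have hp0 : 0 < p := by linarith
  intro n
  have h1 := root_le hp0 (Finset.sum_nonneg fun k _ => Real.rpow_nonneg (norm_nonneg _) _) hs
    (ha n)
  have h2 := root_le hp0 (Finset.sum_nonneg fun k _ => Real.rpow_nonneg (norm_nonneg _) _) ht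
    (hb n)
  have h3 := Real.Lp_add_le (Finset.range n) (fun k => ‖a k‖) (fun k => ‖b k‖) hp
  simp only [abs_norm] at h3
  have h4 : (∑ k ∈ Finset.range n, |‖a k‖ + ‖b k‖| ^ p) ^ (1 / p) ≤ s + t := by linarith
  have h5 := le_of_root hp0 (Finset.sum_nonneg fun k _ => Real.rpow_nonneg (abs_nonneg _) _) h4
  refine le_trans (Finset.sum_le_sum fun k _ => ?_) h5
  apply Real.rpow_le_rpow (norm_nonneg _) _ hp0.le
  rw [Pi.add_apply, abs_of_nonneg (by positivity)]
  exact norm_add_le _ _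

theorem Bd_smul {p : ℝ} {a : ℕ → ℂ} {s : ℝ} (hs : 0 ≤ s) (c : ℂ)
    (ha : Bd p a (s ^ p)) : Bd p (fun k => c * a k) ((‖c‖ * s) ^ p) := by
  intro n
  have h1 : ∀ k, ‖c * a k‖ ^ p = ‖c‖ ^ p * ‖a k‖ ^ p := fun k => by
    rw [norm_mul, Real.mul_rpow (norm_nonneg _) (norm_nonneg _)]
  simp only [h1]
  rw [← Finset.mul_sum, Real.mul_rpow (norm_nonneg _) hs]
  exact mul_le_mul_of_nonneg_left (ha n) (Real.rpow_nonneg (norm_nonneg _) _)

theorem Bd_mono {p : ℝ} (hp : 0 < p) {a : ℕ → ℂ} {s t : ℝ} (hs : 0 ≤ s) (hst : s ≤ t)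
    (ha : Bd p a (s ^ p)) : Bd p a (t ^ p) :=
  fun n => (ha n).trans (Real.rpow_le_rpow hs hst hp.le)

theorem Bd_sum {p : ℝ} (hp : 1 ≤ p) {ι : Type} (S : Finset ι) (a : ι → ℕ → ℂ) (s : ι → ℝ)
    (hs : ∀ i ∈ S, 0 ≤ s i) (ha : ∀ i ∈ S, Bd p (a i) ((s i) ^ p)) :
    Bd p (∑ i ∈ S, a i) ((∑ i ∈ S, s i) ^ p) := by
  classical
  induction S using Finset.induction_on with
  | empty =>
    intro n
    have hp0 : p ≠ 0 := by linarith
    simp [Real.zero_rpow hp0]
  | insert i S hi ih =>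
    rw [Finset.sum_insert hi, Finset.sum_insert hi]
    exact Bd_add hp (hs i (Finset.mem_insert_self _ _))
      (Finset.sum_nonneg fun j hj => hs j (Finset.mem_insert_of_mem hj))
      (ha i (Finset.mem_insert_self _ _))
      (ih (fun j hj => hs j (Finset.mem_insert_of_mem hj))
        (fun j hj => ha j (Finset.mem_insert_of_mem hj)))

/-- extension by zero -/
noncomputable def ext : (ℕ → ℂ) →ₗ[ℂ] (ℤ → ℂ) where
  toFun e := fun n => if 0 ≤ n then e n.toNat else 0
  map_add' a b := by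
    funext n
    simp only [Pi.add_apply]
    split_ifs <;> simp
  map_smul' c a := by
    funext n
    simp only [Pi.smul_apply, RingHom.id_apply, smul_eq_mul]
    split_ifs <;> simp

theorem ext_nat (e : ℕ → ℂ) (k : ℕ) : ext e (k : ℤ) = e k := by
  change (if 0 ≤ (k : ℤ) then e (k : ℤ).toNat else 0) = e k
  simp

theorem ext_neg (e : ℕ → ℂ) (n : ℤ) (hn : n < 0) : ext e n = 0 := by
  change (if 0 ≤ n then e n.toNat else 0) = 0
  rw [if_neg (by omega)]

/-- shifts -/
noncomputable def shM : Multiplicative ℤ →* Module.End ℂ (ℤ → ℂ) where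
  toFun n :=
    { toFun := fun f m => f (m + n.toAdd)
      map_add' := fun f g => rfl
      map_smul' := fun c f => rfl }
  map_one' := by
    ext f m
    simp
  map_mul' a b := by
    apply LinearMap.ext
    intro f
    funext m
    change f (m + (a * b).toAdd) = f (m + a.toAdd + b.toAdd)
    rw [toAdd_mul, add_assoc]

/-- the action of Laurent polynomials on sequences indexed by `ℤ` -/
noncomputable def act : RR →ₐ[ℂ] Module.End ℂ (ℤ → ℂ) := AddMonoidAlgebra.lift ℂ _ ℤ shM

theorem act_apply (x : RR) (f : ℤ → ℂ) (m : ℤ) :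
    act x f m = ∑ n ∈ x.coeff.support, x.coeff n * f (m + n) := by
  unfold act
  rw [AddMonoidAlgebra.lift_apply]
  simp only [Finsupp.sum, LinearMap.sum_apply, Finset.sum_apply, LinearMap.smul_apply,
    Pi.smul_apply, smul_eq_mul]
  rfl

theorem act_single (n : ℤ) (c : ℂ) (f : ℤ → ℂ) (m : ℤ) :
    act (AddMonoidAlgebra.single n c) f m = c * f (m + n) := by
  unfold act
  rw [AddMonoidAlgebra.lift_single]
  rfl

theorem act_tl (G : ℂ[X]) (f : ℤ → ℂ) (m : ℤ) :
    act (tl G) f m = ∑ j ∈ G.support, G.coeff j * f (m + j) := by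
  conv_lhs => rw [G.as_sum_support]
  rw [map_sum, map_sum, LinearMap.sum_apply, Finset.sum_apply]
  refine Finset.sum_congr rfl fun j _ => ?_
  have h1 : tl (monomial j (G.coeff j)) = AddMonoidAlgebra.single (j : ℤ) (G.coeff j) := by
    unfold tl
    rw [LaurentPolynomial.single_eq_C_mul_T]
    exact toLaurent_C_mul_T _ _
  rw [h1, act_single]

theorem Bd_shift {p : ℝ} (hp : 0 < p) {e : ℕ → ℂ} {B : ℝ} (he : Bd p e B) (n : ℤ) :
    Bd p (fun k : ℕ => ext e ((k : ℤ) + n)) B := by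
  intro N
  classical
  have h1 : ∑ k ∈ Finset.range N, ‖ext e ((k : ℤ) + n)‖ ^ p =
      ∑ k ∈ (Finset.range N).filter (fun k : ℕ => 0 ≤ (k : ℤ) + n),
        ‖e ((k : ℤ) + n).toNat‖ ^ p := by
    rw [Finset.sum_filter]
    refine Finset.sum_congr rfl fun k _ => ?_
    split_ifs with h
    · congr 2
      change (if 0 ≤ (k : ℤ) + n then e ((k : ℤ) + n).toNat else 0) = _
      rw [if_pos h]
    · rw [ext_neg e _ (by omega), norm_zero, Real.zero_rpow hp.ne']
  rw [h1]
  have h2 : ∑ k ∈ (Finset.range N).filter (fun k : ℕ => 0 ≤ (k : ℤ) + n),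
      ‖e ((k : ℤ) + n).toNat‖ ^ p =
      ∑ i ∈ ((Finset.range N).filter (fun k : ℕ => 0 ≤ (k : ℤ) + n)).image
        (fun k : ℕ => ((k : ℤ) + n).toNat), ‖e i‖ ^ p := by
    rw [Finset.sum_image]
    intro a ha b hb hab
    simp only [Finset.coe_filter, Finset.mem_range, Set.mem_ofPred_eq] at ha hb
    have : ((a : ℤ) + n).toNat = ((b : ℤ) + n).toNat := hab
    omega
  rw [h2]
  refine le_trans (Finset.sum_le_sum_of_subset_of_nonneg ?_ fun i _ _ =>
    Real.rpow_nonneg (norm_nonneg _) _) (he (N + n.toNat))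
  intro i hi
  rw [Finset.mem_image] at hi
  obtain ⟨k, hk, rfl⟩ := hi
  rw [Finset.mem_filter, Finset.mem_range] at hk
  rw [Finset.mem_range]
  omega

theorem Nn_one (x : RR) : Nn 1 x = ∑ k ∈ x.coeff.support, ‖x.coeff k‖ := by
  unfold Nn
  simp

theorem Bd_act {p : ℝ} (hp : 1 ≤ p) (x : RR) {e : ℕ → ℂ} {t : ℝ} (ht : 0 ≤ t)
    (he : Bd p e (t ^ p)) : Bd p (fun k : ℕ => act x (ext e) k) ((Nn 1 x * t) ^ p) := by
  have h1 := Bd_sum hp x.coeff.support
    (fun n => fun k : ℕ => x.coeff n * ext e ((k : ℤ) + n)) (fun n => ‖x.coeff n‖ * t)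
    (fun n _ => by positivity)
    (fun n _ => Bd_smul ht (x.coeff n) (Bd_shift (by linarith) he n))
  rw [← Finset.sum_mul, ← Nn_one] at h1
  have h2 : (fun k : ℕ => act x (ext e) k) =
      ∑ n ∈ x.coeff.support, fun k : ℕ => x.coeff n * ext e ((k : ℤ) + n) := by
    funext k
    rw [act_apply, Finset.sum_apply]
  rw [h2]
  exact h1

/-- restriction -/
def rs : (ℤ → ℂ) →ₗ[ℂ] (ℕ → ℂ) where
  toFun f := fun k => f k
  map_add' _ _ := rfl
  map_smul' _ _ := rfl

theorem cor_rs (G : ℂ[X]) (f : ℤ → ℂ) (k : ℕ) : cor G (rs f) k = act (tl G) f k := by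
  rw [act_tl]
  unfold cor
  refine Finset.sum_congr rfl fun j _ => ?_
  change G.coeff j * f ((j + k : ℕ) : ℤ) = _
  congr 2
  push_cast
  ring

theorem cor_range (A : ℂ[X]) (d : ℕ) (hd : A.natDegree ≤ d) (f : ℕ → ℂ) (k : ℕ) :
    cor A f k = ∑ j ∈ Finset.range (d + 1), A.coeff j * f (j + k) := by
  unfold cor
  apply Finset.sum_subset
  · intro j hj
    rw [Finset.mem_range]
    have := le_natDegree_of_mem_supp j hj
    omega
  · intro j _ hj
    rw [notMem_support_iff] at hj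
    rw [hj, zero_mul]

theorem Bd_diff {p : ℝ} (hp : 1 ≤ p) (G G' : ℂ[X]) (δ : ℝ) (hδ : 0 ≤ δ)
    (hd : G'.natDegree ≤ G.natDegree) (hc : ∀ k, ‖G'.coeff k - G.coeff k‖ ≤ δ) {h : ℕ → ℂ}
    {t : ℝ} (ht : 0 ≤ t) (hh : Bd p h (t ^ p)) :
    Bd p (fun k => cor G' h k - cor G h k) ((((G.natDegree + 1 : ℕ) : ℝ) * (δ * t)) ^ p) := by
  have hp0 : 0 < p := by linarith
  have h1 := Bd_sum hp (Finset.range (G.natDegree + 1))
    (fun j => fun k : ℕ => (G'.coeff j - G.coeff j) * ext h ((k : ℤ) + (j : ℕ))) (fun _ => δ * t)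
    (fun n _ => by positivity)
    (fun n _ => Bd_mono hp0 (by positivity) (mul_le_mul_of_nonneg_right (hc n) ht)
      (Bd_smul ht _ (Bd_shift hp0 hh (n : ℕ))))
  rw [Finset.sum_const, Finset.card_range, nsmul_eq_mul] at h1
  have h2 : (fun k => cor G' h k - cor G h k) = ∑ j ∈ Finset.range (G.natDegree + 1),
      fun k : ℕ => (G'.coeff j - G.coeff j) * ext h ((k : ℤ) + (j : ℕ)) := by
    funext k
    rw [cor_range G' _ hd, cor_range G _ le_rfl, Finset.sum_apply, ← Finset.sum_sub_distrib]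
    refine Finset.sum_congr rfl fun j _ => ?_
    rw [show ((k : ℤ) + (j : ℕ)) = ((j + k : ℕ) : ℤ) by push_cast; ring, ext_nat]
    ring
  rw [h2]
  exact h1

/-- correlation as a linear map -/
noncomputable def corL (G : ℂ[X]) : (ℕ → ℂ) →ₗ[ℂ] (ℕ → ℂ) where
  toFun f := cor G f
  map_add' a b := by
    funext k
    unfold cor
    simp only [Pi.add_apply, mul_add, Finset.sum_add_distrib]
  map_smul' c a := by
    funext k
    unfold cor
    simp only [Pi.smul_apply, smul_eq_mul, RingHom.id_apply, Finset.mul_sum]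
    refine Finset.sum_congr rfl fun j _ => ?_
    ring

/-- `e ↦ cor G (B e)` -/
noncomputable def LL (G : ℂ[X]) (g : RR) : (ℕ → ℂ) →ₗ[ℂ] (ℕ → ℂ) :=
  (corL G).comp (rs.comp ((act g).comp ext))

theorem ext_cont : Continuous ext := by
  refine continuous_pi fun n => ?_
  by_cases h : 0 ≤ n
  · have : (fun e : ℕ → ℂ => ext e n) = fun e => e n.toNat := by
      funext e
      change (if 0 ≤ n then e n.toNat else 0) = _
      rw [if_pos h]
    rw [this]
    exact continuous_apply _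
  · have : (fun e : ℕ → ℂ => ext e n) = fun e => 0 := by
      funext e
      exact ext_neg e n (by omega)
    rw [this]
    exact continuous_const

theorem B_cont (g : RR) : Continuous (fun e : ℕ → ℂ => rs (act g (ext e))) := by
  refine continuous_pi fun k => ?_
  change Continuous fun e : ℕ → ℂ => act g (ext e) (k : ℤ)
  simp only [act_apply]
  apply continuous_finsetSum
  intro n _
  exact continuous_const.mul ((continuous_apply _).comp ext_cont)

theorem LL_cont (G : ℂ[X]) (g : RR) : Continuous (LL G g) := by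
  refine continuous_pi fun k => ?_
  change Continuous fun e : ℕ → ℂ => cor G (rs (act g (ext e))) k
  unfold cor
  apply continuous_finsetSum
  intro n _
  exact continuous_const.mul ((continuous_apply _).comp (B_cont g))

theorem LL_eq (G : ℂ[X]) (g : RR) (e : ℕ → ℂ) (k : ℕ) :
    LL G g e k = e k + act (tl G * g - 1) (ext e) k := by
  change cor G (rs (act g (ext e))) k = _
  rw [cor_rs]
  have h1 : act (tl G) (act g (ext e)) = act (tl G * g) (ext e) := by
    rw [map_mul]
    rfl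
  rw [h1, map_sub, map_one]
  change _ = e k + (act (tl G * g) (ext e) (k : ℤ) - ext e (k : ℤ))
  rw [ext_nat]
  ring

theorem pt_le {p : ℝ} (hp : 0 < p) {a : ℕ → ℂ} {t : ℝ} (ht : 0 ≤ t) (ha : Bd p a (t ^ p)) (k : ℕ) :
    ‖a k‖ ≤ t := by
  have h1 : ‖a k‖ ^ p ≤ t ^ p := by
    refine le_trans ?_ (ha (k + 1))
    exact Finset.single_le_sum (f := fun k => ‖a k‖ ^ p)
      (fun i _ => Real.rpow_nonneg (norm_nonneg _) _) (Finset.mem_range.2 (Nat.lt_succ_self k))
  exact (Real.rpow_le_rpow_iff (norm_nonneg _) ht hp).1 h1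

end FCPaux

open FCPaux

theorem FCP_proved : S_FCP := by
  intro p hp G ⟨g, hg⟩
  have hp1 : 1 ≤ p := hp.le
  have hp0 : 0 < p := by linarith
  obtain ⟨ng, hng⟩ : ∃ ng, ng = Nn 1 g := ⟨_, rfl⟩
  have hng0 : 0 ≤ ng := by
    rw [hng, Nn_one]
    positivity
  have hdpos : (0 : ℝ) < ((G.natDegree + 1 : ℕ) : ℝ) := by exact_mod_cast Nat.succ_pos _
  refine ⟨2 * ng + 1, 1 / (4 * ((G.natDegree + 1 : ℕ) : ℝ) * (ng + 1)), by positivity,
    by positivity, fun G' hd hc E t ht hE => ?_⟩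
  obtain ⟨δ, hδ⟩ : ∃ δ, δ = 1 / (4 * ((G.natDegree + 1 : ℕ) : ℝ) * (ng + 1)) := ⟨_, rfl⟩
  rw [← hδ] at hc
  have hδ0 : 0 ≤ δ := by rw [hδ]; positivity
  -- the error operator
  have hK : ∀ (e : ℕ → ℂ) (s : ℝ), 0 ≤ s → Bd p e (s ^ p) →
      Bd p (LL G' g e - e) ((s / 2) ^ p) := by
    intro e s hs he
    have h1 := Bd_act hp1 (tl G * g - 1) hs he
    have h2 := Bd_act hp1 g hs he
    have h3 := Bd_diff hp1 G G' δ hδ0 hd hc (by rw [← hng]; positivity) h2
    have h4 := Bd_add hp1 (mul_nonneg (by rw [Nn_one]; positivity) hs) (by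
      rw [← hng]
      positivity) h1 h3
    have h5 : LL G' g e - e = (fun k : ℕ => act (tl G * g - 1) (ext e) k) +
        fun k => cor G' (fun k : ℕ => act g (ext e) k) k - cor G (fun k : ℕ => act g (ext e) k) k := by
      funext k
      have h6 := LL_eq G g e k
      change LL G' g e k - e k = act (tl G * g - 1) (ext e) k + (LL G' g e k - LL G g e k)
      rw [h6]
      ring
    rw [h5]
    refine Bd_mono hp0 ?_ ?_ h4
    · rw [Nn_one, ← hng]
      positivity
    · rw [← hng]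
      have h6 : Nn 1 (tl G * g - 1) * s ≤ 1 / 4 * s := mul_le_mul_of_nonneg_right hg hs
      have h7 : ((G.natDegree + 1 : ℕ) : ℝ) * (δ * (ng * s)) ≤ 1 / 4 * s := by
        have h8 : ((G.natDegree + 1 : ℕ) : ℝ) * (δ * (ng * s)) =
            (ng / (ng + 1)) * (1 / 4 * s) := by
          rw [hδ]
          field_simp
        rw [h8]
        have h9 : ng / (ng + 1) ≤ 1 := by
          rw [div_le_one (by positivity)]
          linarith
        have h10 : 0 ≤ 1 / 4 * s := by positivity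
        nlinarith
      linarith
  -- the iteration
  let D : ℕ → ℕ → ℂ := fun n => Nat.rec (-E) (fun _ d => -(LL G' g d - d)) n
  have hD0 : D 0 = -E := rfl
  have hDs : ∀ n, D (n + 1) = -(LL G' g (D n) - D n) := fun n => rfl
  have hneg : ∀ (a : ℕ → ℂ) (B : ℝ), Bd p a B → Bd p (-a) B := by
    intro a B ha n
    simp only [Pi.neg_apply, norm_neg]
    exact ha n
  have hDB : ∀ n, Bd p (D n) ((t / 2 ^ n) ^ p) := by
    intro n
    induction n with
    | zero =>
      rw [hD0, pow_zero, div_one]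
      exact hneg _ _ hE
    | succ n ih =>
      rw [hDs]
      have h1 := hneg _ _ (hK (D n) _ (by positivity) ih)
      rwa [show t / 2 ^ (n + 1) = t / 2 ^ n / 2 by rw [pow_succ]; field_simp]
  have hDp : ∀ n k, ‖D n k‖ ≤ t * (1 / 2) ^ n := by
    intro n k
    have := pt_le hp0 (by positivity) (hDB n) k
    rw [one_div, inv_pow, ← div_eq_mul_inv]
    exact this
  have hsum : ∀ k, Summable fun n => D n k := by
    intro k
    refine Summable.of_norm_bounded ((summable_geometric_of_lt_one (by norm_num)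
      (by norm_num : (1 / 2 : ℝ) < 1)).mul_left t) fun n => hDp n k
  obtain ⟨x, hx⟩ : ∃ x : ℕ → ℂ, x = fun k => ∑' n, D n k := ⟨_, rfl⟩
  have hlim : Tendsto (fun M : ℕ => ∑ n ∈ Finset.range M, D n) atTop (𝓝 x) := by
    rw [tendsto_pi_nhds]
    intro k
    rw [hx]
    have := (hsum k).hasSum.tendsto_sum_nat
    simpa only [Finset.sum_apply] using this
  have hpart : ∀ M : ℕ, LL G' g (∑ n ∈ Finset.range M, D n) = D 0 - D M := by
    intro M
    rw [map_sum]
    induction M with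
    | zero => simp
    | succ M ih =>
      rw [Finset.sum_range_succ, ih, hDs]
      abel
  have hDlim : Tendsto (fun M : ℕ => D 0 - D M) atTop (𝓝 (-E)) := by
    have h1 : Tendsto (fun M : ℕ => D M) atTop (𝓝 0) := by
      rw [tendsto_pi_nhds]
      intro k
      exact (hsum k).tendsto_atTop_zero
    have h2 := h1.const_sub (D 0)
    rw [sub_zero, hD0] at h2
    exact h2
  have hLx : LL G' g x = -E := by
    have h1 := ((LL_cont G' g).tendsto x).comp hlim
    have h2 : (LL G' g) ∘ (fun M : ℕ => ∑ n ∈ Finset.range M, D n) = fun M : ℕ => D 0 - D M := by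
      funext M
      exact hpart M
    rw [h2] at h1
    exact tendsto_nhds_unique h1 hDlim
  have hxB : Bd p x ((2 * t) ^ p) := by
    intro N
    have h1 : ∀ M : ℕ, ∑ k ∈ Finset.range N, ‖(∑ n ∈ Finset.range M, D n) k‖ ^ p ≤ (2 * t) ^ p := by
      intro M
      have h2 := Bd_sum hp1 (Finset.range M) D (fun n => t / 2 ^ n) (fun n _ => by positivity)
        (fun n _ => hDB n)
      refine Bd_mono hp0 (Finset.sum_nonneg fun n _ => by positivity) ?_ h2 N
      have h3 : ∀ n ∈ Finset.range M, t / 2 ^ n = t * (1 / 2) ^ n := by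
        intro n _
        rw [one_div, inv_pow, div_eq_mul_inv]
      rw [Finset.sum_congr rfl h3, ← Finset.mul_sum]
      have h4 : ∑ n ∈ Finset.range M, (1 / 2 : ℝ) ^ n ≤ 2 := by
        have h5 := Summable.sum_le_tsum (Finset.range M) (fun n _ => by positivity)
          (summable_geometric_of_lt_one (by norm_num) (by norm_num : (1 / 2 : ℝ) < 1))
        rw [tsum_geometric_of_lt_one (by norm_num) (by norm_num)] at h5
        norm_num at h5
        norm_num
        exact h5
      nlinarith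
    have h6 : Tendsto (fun M : ℕ => ∑ k ∈ Finset.range N, ‖(∑ n ∈ Finset.range M, D n) k‖ ^ p)
        atTop (𝓝 (∑ k ∈ Finset.range N, ‖x k‖ ^ p)) := by
      apply tendsto_finsetSum
      intro k _
      exact ((tendsto_pi_nhds.1 hlim k).norm).rpow_const (Or.inr hp0.le)
    exact le_of_tendsto' h6 h1
  refine ⟨rs (act g (ext x)), ?_, fun k => ?_⟩
  · have h1 := Bd_act hp1 g (by positivity) hxB
    rw [← hng] at h1
    refine Bd_mono hp0 (by positivity) ?_ h1
    nlinarith
  · have h1 := congrFun hLx k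
    exact h1

end HM
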